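import Mathlib

/-!
# Codegree Turán densities: random colourings

`Cond f P`: some colour of `ZMod m` is missing on `P`, or the colours on `P` add up to zero. Every
set `Q` contains a vertex `q` with `Cond f (Q \ {q})` (`cond_exists`), but for a random colouring
`Cond f P` is unlikely when `P` is large (`card_cond`). `exists_good`: there are colourings `ω X`,
one for each vertex set `X`, such that for every set `T` and every part `j` (the class of the
vertices which are `j` modulo `L`) which contains at least `θ` vertices of `T`, only few vertices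
`z` satisfy `Cond` for the colouring of `(T \ part j) ∪ {z}` and the set `T ∩ part j`.
-/

set_option autoImplicit false

namespace Pool.Agent.U594.Codeg

open Finset

/-- Some colour is missing on `P`, or the colours on `P` add up to zero. -/
def Cond {n m : ℕ} (f : Fin n → ZMod m) (P : Finset (Fin n)) : Prop :=
  (∃ c, ∀ v ∈ P, f v ≠ c) ∨ ∑ v ∈ P, f v = 0

lemma cond_exists {n m : ℕ} (f : Fin n → ZMod m) (Q : Finset (Fin n)) (hQ : Q.Nonempty) :
    ∃ q ∈ Q, Cond f (Q.erase q) := by
  by_cases h : ∃ c, ∀ v ∈ Q, f v ≠ c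
  · obtain ⟨c, hc⟩ := h
    obtain ⟨q, hq⟩ := hQ
    exact ⟨q, hq, Or.inl ⟨c, fun v hv => hc v (mem_of_mem_erase hv)⟩⟩
  · push Not at h
    obtain ⟨q, hq, hfq⟩ := h (∑ v ∈ Q, f v)
    refine ⟨q, hq, Or.inr ?_⟩
    have := add_sum_erase Q f hq
    rw [hfq] at this
    simpa using this

open Classical in
lemma card_missing {n m : ℕ} [NeZero m] (P : Finset (Fin n)) (c : ZMod m) :
    (univ.filter (fun f : Fin n → ZMod m => ∀ v ∈ P, f v ≠ c)).card =
      (m - 1) ^ P.card * m ^ (n - P.card) := by
  have h : (univ.filter (fun f : Fin n → ZMod m => ∀ v ∈ P, f v ≠ c)) =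
      Fintype.piFinset (fun v => if v ∈ P then univ.erase c else univ) := by
    ext f
    simp only [mem_filter, mem_univ, true_and, Fintype.mem_piFinset]
    constructor
    · intro h v
      split_ifs with hv
      · simp [h v hv]
      · simp
    · intro h v hv
      have := h v
      rw [if_pos hv] at this
      exact (mem_erase.1 this).1
  rw [h, Fintype.card_piFinset]
  have e : ∀ v : Fin n, (if v ∈ P then (univ : Finset (ZMod m)).erase c else univ).card =
      if v ∈ P then m - 1 else m := by
    intro v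
    split_ifs
    · rw [card_erase_of_mem (mem_univ _), card_univ, ZMod.card]
    · rw [card_univ, ZMod.card]
  rw [prod_congr rfl (fun v _ => e v), prod_ite, prod_const, prod_const]
  congr 2
  · simp
  · rw [filter_not, card_sdiff_of_subset (filter_subset _ _)]
    simp

open Classical in
lemma card_sum_zero {n m : ℕ} [NeZero m] (P : Finset (Fin n)) (hP : P.Nonempty) :
    m * (univ.filter (fun f : Fin n → ZMod m => ∑ v ∈ P, f v = 0)).card ≤ m ^ n := by
  obtain ⟨v0, hv0⟩ := hP
  have hcard : Fintype.card (Fin n → ZMod m) = m ^ n := by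
    rw [Fintype.card_fun, ZMod.card, Fintype.card_fin]
  rw [← hcard, ← card_univ]
  have h1 : m * (univ.filter (fun f : Fin n → ZMod m => ∑ v ∈ P, f v = 0)).card =
      ((univ : Finset (ZMod m)) ×ˢ
        (univ.filter (fun f : Fin n → ZMod m => ∑ v ∈ P, f v = 0))).card := by
    rw [card_product, card_univ, ZMod.card]
  rw [h1]
  refine card_le_card_of_injOn (fun p => p.2 + Pi.single v0 p.1) (fun _ _ => by simp) ?_
  rintro ⟨c, f⟩ hf ⟨c', f'⟩ hf' h
  simp only [coe_product, coe_univ, Set.mem_prod, Set.mem_univ, true_and, coe_filter,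
    mem_univ, Set.mem_ofPred_eq] at hf hf'
  have hs : ∀ (g : Fin n → ZMod m) (a : ZMod m), ∑ v ∈ P, (g + (Pi.single v0 a : Fin n → ZMod m)) v =
      ∑ v ∈ P, g v + a := by
    intro g a
    simp only [Pi.add_apply, sum_add_distrib]
    congr 1
    rw [sum_pi_single']
    simp [hv0]
  have h2 : ∑ v ∈ P, (f + (Pi.single v0 c : Fin n → ZMod m)) v =
      ∑ v ∈ P, (f' + (Pi.single v0 c' : Fin n → ZMod m)) v := by
    rw [show f + (Pi.single v0 c : Fin n → ZMod m) = f' + (Pi.single v0 c' : Fin n → ZMod m)
      from h]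
  rw [hs, hs, hf, hf'] at h2
  have hc : c = c' := by simpa using h2
  subst hc
  have : f = f' := by
    have h3 : f + (Pi.single v0 c : Fin n → ZMod m) = f' + (Pi.single v0 c : Fin n → ZMod m) := h
    exact add_right_cancel h3
  rw [this]

open Classical in
lemma card_cond {n m D : ℕ} [NeZero m] (hm : m = 2 * D) (P : Finset (Fin n)) (hP : P.Nonempty)
    (hp : m ^ 2 * (m - 1) ^ P.card ≤ m ^ P.card) :
    D * (univ.filter (fun f : Fin n → ZMod m => Cond f P)).card ≤ m ^ n := by
  have h1 : (univ.filter (fun f : Fin n → ZMod m => Cond f P)) ⊆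
      (univ.biUnion (fun c : ZMod m => univ.filter (fun f : Fin n → ZMod m => ∀ v ∈ P, f v ≠ c))) ∪
        (univ.filter (fun f : Fin n → ZMod m => ∑ v ∈ P, f v = 0)) := by
    intro f hf
    simp only [mem_filter, mem_univ, true_and, Cond] at hf
    rcases hf with ⟨c, hc⟩ | hf
    · exact mem_union_left _ (mem_biUnion.2 ⟨c, mem_univ _, by simpa using hc⟩)
    · exact mem_union_right _ (by simpa using hf)
  have hcardP : P.card ≤ n := by simpa using card_le_univ P
  have h2 : (univ.biUnion (fun c : ZMod m => univ.filter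
      (fun f : Fin n → ZMod m => ∀ v ∈ P, f v ≠ c))).card ≤
      m * ((m - 1) ^ P.card * m ^ (n - P.card)) := by
    refine card_biUnion_le.trans ?_
    rw [sum_congr rfl (fun c _ => card_missing P c), sum_const, card_univ, ZMod.card, smul_eq_mul]
  have h3 := card_sum_zero (m := m) P hP
  have h4 := (card_le_card h1).trans (card_union_le _ _)
  have h5 : m * (m * ((m - 1) ^ P.card * m ^ (n - P.card))) ≤ m ^ n := by
    calc m * (m * ((m - 1) ^ P.card * m ^ (n - P.card)))
        = (m ^ 2 * (m - 1) ^ P.card) * m ^ (n - P.card) := by ring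
      _ ≤ m ^ P.card * m ^ (n - P.card) := Nat.mul_le_mul_right _ hp
      _ = m ^ n := by rw [← pow_add]; congr 1; omega
  have h6 : m * (univ.filter (fun f : Fin n → ZMod m => Cond f P)).card ≤ 2 * m ^ n := by
    calc m * (univ.filter (fun f : Fin n → ZMod m => Cond f P)).card
        ≤ m * (m * ((m - 1) ^ P.card * m ^ (n - P.card)) +
          (univ.filter (fun f : Fin n → ZMod m => ∑ v ∈ P, f v = 0)).card) :=
          Nat.mul_le_mul_left _ (h4.trans (by gcongr))
      _ = m * (m * ((m - 1) ^ P.card * m ^ (n - P.card))) +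
          m * (univ.filter (fun f : Fin n → ZMod m => ∑ v ∈ P, f v = 0)).card := by ring
      _ ≤ 2 * m ^ n := by omega
  have h7 : 2 * (D * (univ.filter (fun f : Fin n → ZMod m => Cond f P)).card) ≤ 2 * m ^ n := by
    calc 2 * (D * (univ.filter (fun f : Fin n → ZMod m => Cond f P)).card)
        = (2 * D) * (univ.filter (fun f : Fin n → ZMod m => Cond f P)).card := by ring
      _ = m * (univ.filter (fun f : Fin n → ZMod m => Cond f P)).card := by rw [← hm]
      _ ≤ _ := h6
  omega

open Classical in
lemma card_A {n m D s : ℕ} [NeZero m] (hm : m = 2 * D) (P T' Z : Finset (Fin n))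
    (hP : P.Nonempty) (hp : m ^ 2 * (m - 1) ^ P.card ≤ m ^ P.card) (hZ : ∀ z ∈ Z, z ∉ T')
    (hs : Z.card = s) :
    D ^ s * (univ.filter (fun ω : Finset (Fin n) → (Fin n → ZMod m) =>
      ∀ z ∈ Z, Cond (ω (insert z T')) P)).card ≤
      Fintype.card (Finset (Fin n) → (Fin n → ZMod m)) := by
  set I : Finset (Finset (Fin n)) := Z.image (fun z => insert z T') with hI
  have hIcard : I.card = s := by
    rw [hI, card_image_of_injOn, hs]
    intro z hz w hw h
    exact (insert_inj (hZ z hz)).1 h
  have hset : (univ.filter (fun ω : Finset (Fin n) → (Fin n → ZMod m) =>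
      ∀ z ∈ Z, Cond (ω (insert z T')) P)) =
      Fintype.piFinset (fun X => if X ∈ I then univ.filter (fun f => Cond f P) else univ) := by
    ext ω
    simp only [mem_filter, mem_univ, true_and, Fintype.mem_piFinset]
    constructor
    · intro h X
      split_ifs with hX
      · obtain ⟨z, hz, rfl⟩ := mem_image.1 hX
        simpa using h z hz
      · simp
    · intro h z hz
      have := h (insert z T')
      rw [if_pos (mem_image_of_mem _ hz)] at this
      simpa using this
  have hD : D ^ s = ∏ X : Finset (Fin n), (if X ∈ I then D else 1) := by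
    rw [prod_ite, prod_const, prod_const_one, mul_one]
    congr 1
    simp [hIcard]
  rw [hset, Fintype.card_piFinset, hD, ← prod_mul_distrib, ← card_univ,
    show (univ : Finset (Finset (Fin n) → (Fin n → ZMod m))) =
      Fintype.piFinset (fun _ => univ) from by ext; simp, Fintype.card_piFinset]
  refine prod_le_prod' (fun X _ => ?_)
  split_ifs
  · rw [card_univ, Fintype.card_fun, ZMod.card, Fintype.card_fin]
    exact card_cond hm P hP hp
  · simp

open Classical in
/-- Good colourings exist. -/
theorem exists_good {n m L D s θ : ℕ} [NeZero m] (hm : m = 2 * D)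
    (hθ : ∀ p, θ ≤ p → m ^ 2 * (m - 1) ^ p ≤ m ^ p) (hθ1 : 1 ≤ θ) (hs : L * 4 ^ n < D ^ s) :
    ∃ ω : Finset (Fin n) → (Fin n → ZMod m),
      ∀ T : Finset (Fin n), ∀ j < L, θ ≤ (T.filter (fun v => v.val % L = j)).card →
        (univ.filter (fun z => z ∉ T ∧ Cond (ω (insert z (T.filter (fun v => v.val % L ≠ j))))
          (T.filter (fun v => v.val % L = j)))).card < s := by
  by_contra hcon
  push Not at hcon
  let A : Finset (Fin n) × ℕ × Finset (Fin n) → Finset (Finset (Fin n) → (Fin n → ZMod m)) :=
    fun p => univ.filter (fun ω => ∀ z ∈ p.2.2,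
      Cond (ω (insert z (p.1.filter (fun v => v.val % L ≠ p.2.1))))
        (p.1.filter (fun v => v.val % L = p.2.1)))
  let I : Finset (Finset (Fin n) × ℕ × Finset (Fin n)) :=
    ((univ : Finset (Finset (Fin n))) ×ˢ (range L ×ˢ (univ : Finset (Finset (Fin n))))).filter
      (fun p => θ ≤ (p.1.filter (fun v => v.val % L = p.2.1)).card ∧ p.2.2.card = s ∧
        ∀ z ∈ p.2.2, z ∉ p.1)
  have hcov : (univ : Finset (Finset (Fin n) → (Fin n → ZMod m))) ⊆ I.biUnion A := by
    intro ω _
    obtain ⟨T, j, hj, h1, h2⟩ := hcon ω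
    obtain ⟨Z, hZ, hZs⟩ := exists_subset_card_eq h2
    refine mem_biUnion.2 ⟨(T, j, Z), ?_, ?_⟩
    · refine mem_filter.2 ⟨by simp [hj], h1, hZs, fun z hz => ?_⟩
      exact (mem_filter.1 (hZ hz)).2.1
    · refine mem_filter.2 ⟨mem_univ _, fun z hz => ?_⟩
      exact (mem_filter.1 (hZ hz)).2.2
  have hcard : Fintype.card (Finset (Fin n) → (Fin n → ZMod m)) ≤ ∑ p ∈ I, (A p).card := by
    rw [← card_univ]
    exact (card_le_card hcov).trans card_biUnion_le
  have hA : ∀ p ∈ I, D ^ s * (A p).card ≤ Fintype.card (Finset (Fin n) → (Fin n → ZMod m)) := by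
    rintro ⟨T, j, Z⟩ hp
    obtain ⟨-, h1, h2, h3⟩ := mem_filter.1 hp
    refine card_A hm _ _ Z ?_ (hθ _ h1) (fun z hz => ?_) h2
    · rw [← card_pos]
      exact lt_of_lt_of_le hθ1 h1
    · intro h
      exact h3 z hz (mem_filter.1 h).1
  have hI : I.card ≤ L * 4 ^ n := by
    refine (card_filter_le _ _).trans ?_
    rw [card_product, card_product, card_univ, Fintype.card_finset, Fintype.card_fin, card_range]
    apply le_of_eq
    calc 2 ^ n * (L * 2 ^ n) = L * (2 * 2) ^ n := by rw [mul_pow]; ring
      _ = _ := by norm_num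
  have hpos : 0 < Fintype.card (Finset (Fin n) → (Fin n → ZMod m)) := Fintype.card_pos
  have : D ^ s * Fintype.card (Finset (Fin n) → (Fin n → ZMod m)) ≤
      L * 4 ^ n * Fintype.card (Finset (Fin n) → (Fin n → ZMod m)) := by
    calc D ^ s * Fintype.card (Finset (Fin n) → (Fin n → ZMod m))
        ≤ D ^ s * ∑ p ∈ I, (A p).card := Nat.mul_le_mul_left _ hcard
      _ = ∑ p ∈ I, D ^ s * (A p).card := by rw [mul_sum]
      _ ≤ ∑ p ∈ I, Fintype.card (Finset (Fin n) → (Fin n → ZMod m)) := sum_le_sum hA
      _ = I.card * Fintype.card (Finset (Fin n) → (Fin n → ZMod m)) := by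
          rw [sum_const, smul_eq_mul]
      _ ≤ _ := Nat.mul_le_mul_right _ hI
  exact absurd (Nat.le_of_mul_le_mul_right this hpos) (not_le.2 hs)

end Pool.Agent.U594.Codeg
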