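import Pool.Agent.U594.Codeg.Label
import Pool.Agent.U594.Codeg.Random

/-!
# Codegree Turán densities: the construction

`V = Fin n` is divided into `L` parts (residues modulo `L`). A `k`-set `S` is removed if for some
part `j` the part `j` is chosen for the profile of `S` with one more vertex in the part `j`, and
`Cond` holds for the colouring `ω (S \ part j)` and the set `S ∩ part j`. Every set of `k + 1`
vertices contains a removed set, and the removed sets have codegrees at most
`2 (n / L + 1) + L s`.
-/

set_option autoImplicit false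

namespace Pool.Agent.U594.Codeg

open Finset

/-- The profile of a vertex set. -/
def prof {n : ℕ} (L : ℕ) (S : Finset (Fin n)) : ℕ → ℕ :=
  fun i => (S.filter (fun v => v.val % L = i)).card

lemma sum_prof {n L : ℕ} (hL : 0 < L) (S : Finset (Fin n)) :
    ∑ l ∈ range L, prof L S l = S.card :=
  (card_eq_sum_card_fiberwise (f := fun v : Fin n => v.val % L) (t := range L)
    (fun v _ => by simpa using Nat.mod_lt _ hL)).symm

lemma prof_insert {n L : ℕ} {S : Finset (Fin n)} {z : Fin n} (hz : z ∉ S) :
    prof L (insert z S) = bump (prof L S) (z.val % L) 1 := by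
  funext i
  unfold prof bump
  rw [filter_insert]
  split_ifs with h1 h2 h2
  · rw [card_insert_of_notMem (by simp [hz])]
  · exact absurd h1.symm h2
  · exact absurd h2.symm h1
  · rfl

lemma bump_bump (b : ℕ → ℕ) (i : ℕ) : bump (bump b i 1) i 1 = bump b i 2 := by
  funext l
  unfold bump
  split_ifs <;> rfl

lemma card_part {n L : ℕ} (i : ℕ) :
    (univ.filter (fun v : Fin n => v.val % L = i)).card ≤ n / L + 1 := by
  rw [← card_range (n / L + 1)]
  refine card_le_card_of_injOn (fun v => v.val / L) (fun v _ => ?_) ?_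
  · simp only [coe_range, Set.mem_Iio]
    exact Nat.lt_succ_of_le (Nat.div_le_div_right v.isLt.le)
  · intro v hv w hw h
    simp only [coe_filter, mem_univ, true_and, Set.mem_ofPred_eq] at hv hw
    apply Fin.ext
    rw [← Nat.div_add_mod v.val L, ← Nat.div_add_mod w.val L, hv, hw]
    have : v.val / L = w.val / L := h
    rw [this]

/-- The removed sets. -/
def Rem {n m : ℕ} (L θ : ℕ) (ω : Finset (Fin n) → (Fin n → ZMod m)) (S : Finset (Fin n)) : Prop :=
  ∃ j < L, Lab L θ (bump (prof L S) j 1) j ∧
    Cond (ω (S.filter (fun v => v.val % L ≠ j))) (S.filter (fun v => v.val % L = j))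

/-- Every `(k + 1)`-set contains a removed `k`-set. -/
lemma rem_exists {n m L θ k : ℕ} (hL : 0 < L) (hk : L * θ ≤ k)
    (ω : Finset (Fin n) → (Fin n → ZMod m)) (K : Finset (Fin n)) (hK : K.card = k + 1) :
    ∃ S ⊆ K, S.card = k ∧ Rem L θ ω S := by
  have h1 := cum_lower L θ (prof L K)
  rw [sum_prof hL, hK] at h1
  obtain ⟨i, hi⟩ := lab_exists (θ := θ) (b := prof L K) hL (by omega)
  have h2 := lab_pos hi
  have hQ : (K.filter (fun v => v.val % L = i)).Nonempty := by
    rw [← card_pos]
    exact lt_of_le_of_lt (Nat.zero_le _) h2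
  obtain ⟨q, hq, hc⟩ := cond_exists (ω (K.filter (fun v => v.val % L ≠ i)))
    (K.filter (fun v => v.val % L = i)) hQ
  obtain ⟨hqK, hqi⟩ := mem_filter.1 hq
  refine ⟨K.erase q, erase_subset _ _, by rw [card_erase_of_mem hqK, hK]; rfl, i, hi.1, ?_, ?_⟩
  · have h3 : bump (prof L (K.erase q)) i 1 = prof L K := by
      have := prof_insert (L := L) (notMem_erase q K)
      rw [insert_erase hqK, hqi] at this
      exact this.symm
    rw [h3]
    exact hi
  · have h3 : (K.erase q).filter (fun v => v.val % L ≠ i) = K.filter (fun v => v.val % L ≠ i) := by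
      ext v
      simp only [mem_filter, mem_erase]
      constructor
      · rintro ⟨⟨_, h⟩, h'⟩; exact ⟨h, h'⟩
      · rintro ⟨h, h'⟩
        exact ⟨⟨fun e => h' (e ▸ hqi), h⟩, h'⟩
    have h4 : (K.erase q).filter (fun v => v.val % L = i) =
        (K.filter (fun v => v.val % L = i)).erase q := by
      ext v
      simp only [mem_filter, mem_erase]
      tauto
    rw [h3, h4]
    exact hc

open Classical in
/-- The codegrees of the removed sets are small. -/
lemma rem_codegree {n m L θ k s : ℕ} (hL : 0 < L) (hk : L * θ + 4 * L ≤ k)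
    (ω : Finset (Fin n) → (Fin n → ZMod m))
    (hω : ∀ T : Finset (Fin n), ∀ j < L, θ ≤ (T.filter (fun v => v.val % L = j)).card →
        (univ.filter (fun z => z ∉ T ∧ Cond (ω (insert z (T.filter (fun v => v.val % L ≠ j))))
          (T.filter (fun v => v.val % L = j)))).card < s)
    (T : Finset (Fin n)) (hT : T.card = k) :
    (univ.filter (fun z => z ∉ T ∧ Rem L θ ω (insert z T))).card ≤ 2 * (n / L + 1) + L * s := by
  have h1 := cum_lower L θ (prof L T)
  rw [sum_prof hL, hT] at h1
  have hE := card_E (L := L) (θ := θ) (t := prof L T) (by omega)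
  let Z : ℕ → Finset (Fin n) := fun j =>
    univ.filter (fun z => z ∉ T ∧ Cond (ω (insert z (T.filter (fun v => v.val % L ≠ j))))
          (T.filter (fun v => v.val % L = j)))
  have hsub : (univ.filter (fun z => z ∉ T ∧ Rem L θ ω (insert z T))) ⊆
      ((E L θ (prof L T)).biUnion (fun i => univ.filter (fun v : Fin n => v.val % L = i))) ∪
        (((range L).filter (fun j => θ ≤ prof L T j)).biUnion Z) := by
    intro z hz
    obtain ⟨-, hzT, j, hj, hlab, hcond⟩ := mem_filter.1 hz
    rw [prof_insert hzT] at hlab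
    by_cases hjz : z.val % L = j
    · refine mem_union_left _ (mem_biUnion.2 ⟨j, ?_, by simpa using hjz⟩)
      rw [hjz, bump_bump] at hlab
      exact mem_filter.2 ⟨mem_range.2 hj, hlab⟩
    · refine mem_union_right _ (mem_biUnion.2 ⟨j, mem_filter.2 ⟨mem_range.2 hj, ?_⟩, ?_⟩)
      · have := lab_pos hlab
        unfold bump at this
        rw [if_pos rfl, if_neg (fun h => hjz h.symm)] at this
        omega
      · refine mem_filter.2 ⟨mem_univ _, hzT, ?_⟩
        rw [filter_insert, filter_insert, if_pos hjz, if_neg hjz] at hcond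
        exact hcond
  refine (card_le_card hsub).trans ((card_union_le _ _).trans (add_le_add ?_ ?_))
  · refine card_biUnion_le.trans ((sum_le_sum (fun i _ => card_part i)).trans ?_)
    rw [sum_const, smul_eq_mul]
    exact Nat.mul_le_mul_right _ hE
  · refine card_biUnion_le.trans ((sum_le_sum (fun j hj => ?_)).trans
      (show ∑ _j ∈ (range L).filter (fun j => θ ≤ prof L T j), s ≤ L * s from ?_))
    · obtain ⟨hj1, hj2⟩ := mem_filter.1 hj
      exact (hω T j (mem_range.1 hj1) hj2).le
    · rw [sum_const, smul_eq_mul]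
      refine Nat.mul_le_mul_right _ ((card_filter_le _ _).trans ?_)
      rw [card_range]

/-- The codegree of a set `T` of vertices in `H`. -/
def codegree {n : ℕ} (H : Finset (Finset (Fin n))) (T : Finset (Fin n)) : ℕ :=
  (univ.filter (fun v => v ∉ T ∧ insert v T ∈ H)).card

/-- The hypergraph. -/
theorem construct {n m L D θ k s : ℕ} [NeZero m] (hL : 0 < L) (hk : L * θ + 4 * L ≤ k)
    (hm : m = 2 * D) (hθ : ∀ p, θ ≤ p → m ^ 2 * (m - 1) ^ p ≤ m ^ p) (hθ1 : 1 ≤ θ)
    (hs : L * 4 ^ n < D ^ s) :
    ∃ H : Finset (Finset (Fin n)), (∀ e ∈ H, e.card = k + 1) ∧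
      (∀ K : Finset (Fin n), K.card = k + 2 → ∃ S ⊆ K, S.card = k + 1 ∧ S ∉ H) ∧
      ∀ T : Finset (Fin n), T.card = k →
        n ≤ codegree H T + k + (2 * (n / L + 1) + L * s) := by
  classical
  obtain ⟨ω, hω⟩ := exists_good (n := n) (L := L) (s := s) hm hθ hθ1 hs
  refine ⟨(powersetCard (k + 1) univ).filter (fun S => ¬ Rem L θ ω S), ?_, ?_, ?_⟩
  · intro e he
    exact (mem_powersetCard.1 (mem_filter.1 he).1).2
  · intro K hK
    obtain ⟨S, hS, hS1, hS2⟩ := rem_exists (θ := θ) hL (show L * θ ≤ k + 1 by omega) ω K hK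
    refine ⟨S, hS, hS1, fun h => ?_⟩
    exact (mem_filter.1 h).2 hS2
  · intro T hT
    have h1 := rem_codegree hL hk ω (fun T j hj h => hω T j hj h) T hT
    have h2 : (univ.filter (fun z => z ∉ T)).card =
        (univ.filter (fun z => z ∉ T ∧ Rem L θ ω (insert z T))).card +
        (univ.filter (fun z => z ∉ T ∧ ¬ Rem L θ ω (insert z T))).card := by
      rw [← card_filter_add_card_filter_not (s := univ.filter (fun z => z ∉ T))
        (fun z => Rem L θ ω (insert z T)), filter_filter, filter_filter]
    have h3 : (univ.filter (fun z => z ∉ T)).card = n - k := by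
      have : univ.filter (fun z => z ∉ T) = Tᶜ := by ext; simp
      rw [this, card_compl, hT, Fintype.card_fin]
    have h4 : (univ.filter (fun z => z ∉ T ∧ ¬ Rem L θ ω (insert z T))).card ≤
        codegree ((powersetCard (k + 1) univ).filter (fun S => ¬ Rem L θ ω S)) T := by
      unfold codegree
      refine card_le_card (fun z hz => ?_)
      obtain ⟨-, hzT, hr⟩ := mem_filter.1 hz
      refine mem_filter.2 ⟨mem_univ _, hzT, mem_filter.2 ⟨mem_powersetCard.2 ⟨subset_univ _, ?_⟩,
        hr⟩⟩
      rw [card_insert_of_notMem hzT, hT]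
    omega

end Pool.Agent.U594.Codeg
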