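import Mathlib

/-!
# Codegree Turán densities: choosing a part

`b : ℕ → ℕ` is the profile of a vertex set: `b l` is the number of its vertices in the part `l < L`.
`Lab L θ b i` says that the part `i` is chosen for a set with the profile `b`. The chosen part has
more than `θ` vertices of the set. The point of the definition is `card_E`: if two vertices are
added to a set (with profile `t`) in one and the same part `j`, the part `j` is chosen for at most
two `j`.
-/

set_option autoImplicit false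

namespace Pool.Agent.U594.Codeg

open Finset

/-- Partial sums of the truncated differences `b l - θ`. -/
def cum (θ : ℕ) (b : ℕ → ℕ) (i : ℕ) : ℕ := ∑ l ∈ range i, (b l - θ)

/-- The weighted sum of a profile. -/
def wt (L : ℕ) (b : ℕ → ℕ) : ℕ := ∑ l ∈ range L, (2 * L - l) * b l

/-- The part `i` is chosen for the profile `b`. -/
def Lab (L θ : ℕ) (b : ℕ → ℕ) (i : ℕ) : Prop :=
  i < L ∧ cum θ b i * (2 * L) ≤ (wt L b % (2 * L)) * cum θ b L ∧
    (wt L b % (2 * L)) * cum θ b L < cum θ b (i + 1) * (2 * L)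

/-- The profile with `c` more vertices in the part `j`. -/
def bump (b : ℕ → ℕ) (j c : ℕ) : ℕ → ℕ := fun i => b i + if i = j then c else 0

lemma lab_exists {L θ : ℕ} {b : ℕ → ℕ} (hL : 0 < L) (h : 0 < cum θ b L) :
    ∃ i, Lab L θ b i := by
  classical
  have hx : wt L b % (2 * L) < 2 * L := Nat.mod_lt _ (by omega)
  have hex : ∃ i, (wt L b % (2 * L)) * cum θ b L < cum θ b (i + 1) * (2 * L) := by
    refine ⟨L - 1, ?_⟩
    rw [Nat.sub_add_cancel hL, mul_comm (cum θ b L)]
    exact Nat.mul_lt_mul_of_pos_right hx h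
  have hs := Nat.find_spec hex
  refine ⟨Nat.find hex, ?_, ?_, hs⟩
  · have : Nat.find hex ≤ L - 1 := by
      apply Nat.find_min'
      rw [Nat.sub_add_cancel hL, mul_comm (cum θ b L)]
      exact Nat.mul_lt_mul_of_pos_right hx h
    omega
  · rcases Nat.eq_zero_or_pos (Nat.find hex) with h0 | h0
    · rw [h0]; simp [cum]
    · have := Nat.find_min hex (m := Nat.find hex - 1) (by omega)
      rw [Nat.sub_add_cancel h0] at this
      omega

lemma lab_pos {L θ : ℕ} {b : ℕ → ℕ} {i : ℕ} (h : Lab L θ b i) : θ < b i := by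
  obtain ⟨hi, h1, h2⟩ := h
  have h3 : cum θ b i * (2 * L) < cum θ b (i + 1) * (2 * L) := lt_of_le_of_lt h1 h2
  have h4 : cum θ b i < cum θ b (i + 1) := lt_of_mul_lt_mul_right h3 (Nat.zero_le _)
  unfold cum at h4
  rw [sum_range_succ] at h4
  omega

lemma cum_bump_le (θ : ℕ) (b : ℕ → ℕ) (j c i : ℕ) :
    cum θ (bump b j c) i ≤ cum θ b i + c := by
  unfold cum bump
  calc ∑ l ∈ range i, (b l + (if l = j then c else 0) - θ)
      ≤ ∑ l ∈ range i, ((b l - θ) + (if l = j then c else 0)) :=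
        sum_le_sum (fun l _ => by omega)
    _ = ∑ l ∈ range i, (b l - θ) + ∑ l ∈ range i, (if l = j then c else 0) := sum_add_distrib
    _ ≤ ∑ l ∈ range i, (b l - θ) + c := by
        gcongr
        rw [sum_ite_eq']
        split_ifs <;> omega

lemma cum_le_bump (θ : ℕ) (b : ℕ → ℕ) (j c i : ℕ) :
    cum θ b i ≤ cum θ (bump b j c) i := by
  unfold cum bump
  exact sum_le_sum (fun l _ => by omega)

lemma cum_bump_eq {θ : ℕ} {b : ℕ → ℕ} {j c i : ℕ} (h : i ≤ j) :
    cum θ (bump b j c) i = cum θ b i := by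
  unfold cum bump
  refine sum_congr rfl (fun l hl => ?_)
  rw [mem_range] at hl
  rw [if_neg (by omega)]
  rfl

lemma cum_mono {θ : ℕ} {b : ℕ → ℕ} {i i' : ℕ} (h : i ≤ i') : cum θ b i ≤ cum θ b i' := by
  unfold cum
  exact sum_le_sum_of_subset (range_subset_range.2 h)

lemma wt_bump {L : ℕ} {b : ℕ → ℕ} {j c : ℕ} (h : j < L) :
    wt L (bump b j c) = wt L b + (2 * L - j) * c := by
  unfold wt bump
  have : ∀ l ∈ range L, (2 * L - l) * (b l + if l = j then c else 0) =
      (2 * L - l) * b l + (if l = j then (2 * L - j) * c else 0) := by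
    intro l _
    by_cases hl : l = j
    · subst hl; simp [mul_add]
    · simp [hl]
  rw [sum_congr rfl this, sum_add_distrib, sum_ite_eq', if_pos (mem_range.2 h)]

/-- the residue of the weighted sum after adding two vertices in the part `j` -/
lemma wt_mod {L : ℕ} {t : ℕ → ℕ} {j : ℕ} (h : j < L) :
    wt L (bump t j 2) % (2 * L) =
      if 2 * j ≤ wt L t % (2 * L) then wt L t % (2 * L) - 2 * j
      else wt L t % (2 * L) + 2 * L - 2 * j := by
  rw [wt_bump h]
  have hx : wt L t % (2 * L) < 2 * L := Nat.mod_lt _ (by omega)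
  have e : wt L t = 2 * L * (wt L t / (2 * L)) + wt L t % (2 * L) := (Nat.div_add_mod _ _).symm
  set x := wt L t % (2 * L) with hxd
  set q := wt L t / (2 * L) with hq
  rw [e]
  split_ifs with h2
  · have : 2 * L * q + x + (2 * L - j) * 2 = (x - 2 * j) + 2 * L * (q + 2) := by
      have h3 : (2 * L - j) * 2 = 4 * L - 2 * j := by omega
      rw [h3]
      have h4 : 2 * L * (q + 2) = 2 * L * q + 4 * L := by ring
      rw [h4]
      omega
    rw [this, Nat.add_mul_mod_self_left, Nat.mod_eq_of_lt (by omega)]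
  · have : 2 * L * q + x + (2 * L - j) * 2 = (x + 2 * L - 2 * j) + 2 * L * (q + 1) := by
      have h3 : (2 * L - j) * 2 = 4 * L - 2 * j := by omega
      rw [h3]
      have h4 : 2 * L * (q + 1) = 2 * L * q + 2 * L := by ring
      rw [h4]
      omega
    rw [this, Nat.add_mul_mod_self_left, Nat.mod_eq_of_lt (by omega)]

/-- two parts cannot both be chosen if the residues decrease -/
lemma no_pair {L θ : ℕ} {t : ℕ → ℕ} {j j' : ℕ} (hA : 4 * L ≤ cum θ t L) (hjj : j < j')
    (h1 : Lab L θ (bump t j 2) j) (h2 : Lab L θ (bump t j' 2) j')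
    (hy : wt L (bump t j' 2) % (2 * L) + 2 ≤ wt L (bump t j 2) % (2 * L)) : False := by
  obtain ⟨hj, -, h1⟩ := h1
  obtain ⟨hj', h2, -⟩ := h2
  have hx : wt L (bump t j' 2) % (2 * L) < 2 * L := Nat.mod_lt _ (by omega)
  set Y := wt L (bump t j 2) % (2 * L)
  set Y' := wt L (bump t j' 2) % (2 * L)
  have a1 : cum θ t L ≤ cum θ (bump t j 2) L := cum_le_bump _ _ _ _ _
  have a2 : cum θ (bump t j' 2) L ≤ cum θ t L + 2 := cum_bump_le _ _ _ _ _
  have a3 : cum θ (bump t j 2) (j + 1) ≤ cum θ t j' + 2 :=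
    (cum_bump_le _ _ _ _ _).trans (by gcongr; exact cum_mono (by omega))
  have a4 : cum θ (bump t j' 2) j' = cum θ t j' := cum_bump_eq le_rfl
  rw [a4] at h2
  have b1 : Y * cum θ t L < (cum θ t j' + 2) * (2 * L) :=
    lt_of_le_of_lt (Nat.mul_le_mul_left _ a1) (lt_of_lt_of_le h1 (Nat.mul_le_mul_right _ a3))
  have b2 : cum θ t j' * (2 * L) ≤ Y' * (cum θ t L + 2) := h2.trans (Nat.mul_le_mul_left _ a2)
  have b3 : (Y' + 2) * cum θ t L ≤ Y * cum θ t L := Nat.mul_le_mul_right _ hy
  nlinarith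

open Classical in
/-- the parts `j` which are chosen after adding two vertices in `j` -/
noncomputable def E (L θ : ℕ) (t : ℕ → ℕ) : Finset ℕ :=
  (range L).filter (fun j => Lab L θ (bump t j 2) j)

lemma card_E {L θ : ℕ} {t : ℕ → ℕ} (hA : 4 * L ≤ cum θ t L) : (E L θ t).card ≤ 2 := by
  classical
  set x := wt L t % (2 * L) with hx
  have h1 : ((E L θ t).filter (fun j => 2 * j ≤ x)).card ≤ 1 := by
    rw [card_le_one]
    intro a ha b hb
    simp only [E, mem_filter, mem_range] at ha hb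
    obtain ⟨⟨ha0, ha1⟩, ha2⟩ := ha
    obtain ⟨⟨hb0, hb1⟩, hb2⟩ := hb
    have ea := wt_mod (t := t) ha0
    have eb := wt_mod (t := t) hb0
    rw [← hx, if_pos ha2] at ea
    rw [← hx, if_pos hb2] at eb
    rcases lt_trichotomy a b with h | h | h
    · exact (no_pair hA h ha1 hb1 (by omega)).elim
    · exact h
    · exact (no_pair hA h hb1 ha1 (by omega)).elim
  have h2 : ((E L θ t).filter (fun j => ¬ 2 * j ≤ x)).card ≤ 1 := by
    rw [card_le_one]
    intro a ha b hb
    simp only [E, mem_filter, mem_range] at ha hb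
    obtain ⟨⟨ha0, ha1⟩, ha2⟩ := ha
    obtain ⟨⟨hb0, hb1⟩, hb2⟩ := hb
    have ea := wt_mod (t := t) ha0
    have eb := wt_mod (t := t) hb0
    rw [← hx, if_neg ha2] at ea
    rw [← hx, if_neg hb2] at eb
    rcases lt_trichotomy a b with h | h | h
    · exact (no_pair hA h ha1 hb1 (by omega)).elim
    · exact h
    · exact (no_pair hA h hb1 ha1 (by omega)).elim
  have := card_filter_add_card_filter_not (s := E L θ t) (fun j => 2 * j ≤ x)
  omega

lemma cum_lower (L θ : ℕ) (b : ℕ → ℕ) : ∑ l ∈ range L, b l ≤ cum θ b L + L * θ := by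
  unfold cum
  calc ∑ l ∈ range L, b l ≤ ∑ l ∈ range L, ((b l - θ) + θ) := sum_le_sum (fun l _ => by omega)
    _ = _ := by rw [sum_add_distrib]; simp

end Pool.Agent.U594.Codeg
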