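import Pool.Agent.U594.Codeg.Construct

/-!
# Codegree Turán densities of `K_{k+1}^k` tend to one

Definitions of the codegree Turán density and the limit theorem.
-/

set_option autoImplicit false

namespace Pool.Agent.U594.Codeg

open Finset Filter Topology

/-- `H` contains a copy of `F`: some injection of the vertices sends every edge of `F` to an edge
of `H`. -/
def Contains {V W : Type} (H : Finset (Finset V)) (F : Finset (Finset W)) : Prop :=
  ∃ f : W ↪ V, ∀ e ∈ F, e.map f ∈ H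

/-- The complete `k`-graph `K_t^k`: all `k`-subsets of `t` vertices are edges. -/
def complete (k t : ℕ) : Finset (Finset (Fin t)) := powersetCard k univ

/-- `δ_{k-1}(H)`: the least codegree of a set of `k - 1` vertices. -/
noncomputable def minCodegree {n : ℕ} (k : ℕ) (H : Finset (Finset (Fin n))) : ℕ :=
  sInf {d | ∃ T : Finset (Fin n), T.card = k - 1 ∧ codegree H T = d}

/-- `ex_{k-1}(n, F)`: the largest value of `δ_{k-1}(H)` over all `k`-graphs `H` on `n` vertices
which contain no copy of `F`. -/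
noncomputable def exCodegree (k : ℕ) {t : ℕ} (F : Finset (Finset (Fin t))) (n : ℕ) : ℕ :=
  sSup {d | ∃ H : Finset (Finset (Fin n)), (∀ e ∈ H, e.card = k) ∧ ¬ Contains H F ∧
    minCodegree k H = d}

/-- `π_{k-1}(F)`: the codegree Turán density of the `k`-graph `F`. -/
noncomputable def codegreeDensity (k : ℕ) {t : ℕ} (F : Finset (Finset (Fin t))) : ℝ :=
  limsup (fun n : ℕ => (exCodegree k F n : ℝ) / n) atTop

lemma codegree_le {n : ℕ} (H : Finset (Finset (Fin n))) (T : Finset (Fin n)) :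
    codegree H T ≤ n := by
  unfold codegree
  simpa using card_filter_le (univ : Finset (Fin n)) (fun v => v ∉ T ∧ insert v T ∈ H)

lemma minCodegree_le {n : ℕ} (k : ℕ) (H : Finset (Finset (Fin n))) : minCodegree k H ≤ n := by
  unfold minCodegree
  rcases Set.eq_empty_or_nonempty {d | ∃ T : Finset (Fin n), T.card = k - 1 ∧ codegree H T = d}
    with h | ⟨d, hd⟩
  · rw [h]; simp
  · refine (Nat.sInf_le hd).trans ?_
    obtain ⟨T, -, rfl⟩ := hd
    exact codegree_le H T

lemma exCodegree_le (k : ℕ) {t : ℕ} (F : Finset (Finset (Fin t))) (n : ℕ) :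
    exCodegree k F n ≤ n := by
  unfold exCodegree
  apply csSup_le'
  rintro d ⟨H, -, -, rfl⟩
  exact minCodegree_le k H

lemma le_exCodegree {k t n : ℕ} {F : Finset (Finset (Fin t))} (H : Finset (Finset (Fin n)))
    (h1 : ∀ e ∈ H, e.card = k) (h2 : ¬ Contains H F) : minCodegree k H ≤ exCodegree k F n := by
  unfold exCodegree
  refine le_csSup ⟨n, ?_⟩ ⟨H, h1, h2, rfl⟩
  rintro d ⟨H, -, -, rfl⟩
  exact minCodegree_le k H

lemma minCodegree_ge {n k : ℕ} (H : Finset (Finset (Fin n))) (hkn : k - 1 ≤ n) (x : ℝ)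
    (h : ∀ T : Finset (Fin n), T.card = k - 1 → x ≤ codegree H T) : x ≤ minCodegree k H := by
  have hne : {d | ∃ T : Finset (Fin n), T.card = k - 1 ∧ codegree H T = d}.Nonempty := by
    obtain ⟨T, -, hT⟩ := exists_subset_card_eq (s := (univ : Finset (Fin n))) (n := k - 1)
      (by simpa using hkn)
    exact ⟨_, T, hT, rfl⟩
  obtain ⟨T, hT, hd⟩ := Nat.sInf_mem hne
  have := h T hT
  rw [hd] at this
  exact this

lemma not_contains {n k : ℕ} (H : Finset (Finset (Fin n)))
    (h : ∀ K : Finset (Fin n), K.card = k + 2 → ∃ S ⊆ K, S.card = k + 1 ∧ S ∉ H) :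
    ¬ Contains H (complete (k + 1) (k + 2)) := by
  rintro ⟨f, hf⟩
  obtain ⟨S, hS, hS1, hS2⟩ := h (univ.map f) (by simp)
  obtain ⟨u, -, rfl⟩ := subset_map_iff.1 hS
  refine hS2 (hf u (mem_powersetCard.2 ⟨subset_univ _, ?_⟩))
  rwa [card_map] at hS1

lemma exists_theta (m : ℕ) (hm : 1 ≤ m) :
    ∃ θ, 1 ≤ θ ∧ ∀ p, θ ≤ p → m ^ 2 * (m - 1) ^ p ≤ m ^ p := by
  have hm0 : (0 : ℝ) < m := by exact_mod_cast hm
  have h1 : Tendsto (fun p : ℕ => (((m - 1 : ℕ) : ℝ) / m) ^ p) atTop (𝓝 0) := by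
    apply tendsto_pow_atTop_nhds_zero_of_lt_one (by positivity)
    rw [div_lt_one hm0]
    exact_mod_cast Nat.sub_lt hm one_pos
  have h2 : ∀ᶠ p : ℕ in atTop, (((m - 1 : ℕ) : ℝ) / m) ^ p < 1 / (m : ℝ) ^ 2 :=
    h1.eventually_lt_const (by positivity)
  obtain ⟨θ, hθ⟩ := eventually_atTop.1 h2
  refine ⟨max θ 1, le_max_right _ _, fun p hp => ?_⟩
  have h3 := hθ p ((le_max_left _ _).trans hp)
  rw [div_pow, div_lt_div_iff₀ (by positivity) (by positivity), one_mul] at h3
  have h4 : (m : ℝ) ^ 2 * ((m - 1 : ℕ) : ℝ) ^ p ≤ (m : ℝ) ^ p := by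
    rw [mul_comm]; exact h3.le
  exact_mod_cast h4

/-- For every `ε > 0` and all large `k` there are, for all large `n`, hypergraphs with codegrees at
least `(1 - ε) n`, all edges of size `k + 1`, without `k + 2` vertices all of whose
`(k + 1)`-subsets are edges. -/
theorem exists_hypergraph (ε : ℝ) (hε : 0 < ε) : ∃ k0, ∀ k, k0 ≤ k → ∃ n0, ∀ n, n0 ≤ n →
    ∃ H : Finset (Finset (Fin n)), (∀ e ∈ H, e.card = k + 1) ∧
      (∀ K : Finset (Fin n), K.card = k + 2 → ∃ S ⊆ K, S.card = k + 1 ∧ S ∉ H) ∧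
      ∀ T : Finset (Fin n), T.card = k → (1 - ε) * n ≤ codegree H T := by
  obtain ⟨L, hL⟩ := exists_nat_gt (8 / ε)
  have hL0 : 0 < L := by
    have : (0 : ℝ) < L := lt_trans (by positivity) hL
    exact_mod_cast this
  obtain ⟨g, hg⟩ := exists_nat_gt (4 * L / ε)
  have hLr : (0 : ℝ) < L := by exact_mod_cast hL0
  have hg0 : 0 < g := by
    have : (0 : ℝ) < g := lt_of_le_of_lt (by positivity) hg
    exact_mod_cast this
  have hgr : (0 : ℝ) < g := by exact_mod_cast hg0
  set D : ℕ := 16 ^ g with hD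
  set m : ℕ := 2 * D with hm
  have hD0 : 0 < D := by positivity
  have : NeZero m := ⟨by omega⟩
  obtain ⟨θ, hθ1, hθ⟩ := exists_theta m (by omega)
  refine ⟨L * θ + 4 * L, fun k hk => ?_⟩
  obtain ⟨n1, hn1⟩ := exists_nat_gt (2 * (k + 2 + L : ℝ) / ε)
  refine ⟨max L n1, fun n hn => ?_⟩
  have hnL : L ≤ n := (le_max_left _ _).trans hn
  have hnn : n1 ≤ n := (le_max_right _ _).trans hn
  have hs : L * 4 ^ n < D ^ (n / g + 1) := by
    calc L * 4 ^ n ≤ n * 4 ^ n := Nat.mul_le_mul_right _ hnL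
      _ < 4 ^ n * 4 ^ n := Nat.mul_lt_mul_of_pos_right (Nat.lt_pow_self (by norm_num)) (by positivity)
      _ = 16 ^ n := by rw [← mul_pow]; norm_num
      _ ≤ 16 ^ (g * (n / g + 1)) := Nat.pow_le_pow_right (by norm_num)
          (Nat.lt_mul_div_succ n hg0).le
      _ = D ^ (n / g + 1) := by rw [hD, ← pow_mul]
  obtain ⟨H, h1, h2, h3⟩ := construct (n := n) (s := n / g + 1) hL0 hk hm hθ hθ1 hs
  refine ⟨H, h1, h2, fun T hT => ?_⟩
  have h4 : (n : ℝ) ≤ codegree H T + k + (2 * (((n / L : ℕ) : ℝ) + 1) +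
      L * (((n / g : ℕ) : ℝ) + 1)) := by exact_mod_cast h3 T hT
  have h5 : ((n / L : ℕ) : ℝ) ≤ n / L := Nat.cast_div_le
  have h6 : ((n / g : ℕ) : ℝ) ≤ n / g := Nat.cast_div_le
  have hn0 : (0 : ℝ) ≤ n := Nat.cast_nonneg _
  have h7 : 2 * ((n : ℝ) / L) ≤ ε / 4 * n := by
    have : 8 / ε < L := hL
    rw [div_lt_iff₀ hε] at this
    rw [mul_div_assoc', div_le_iff₀ hLr]
    nlinarith
  have h8 : (L : ℝ) * ((n : ℝ) / g) ≤ ε / 4 * n := by
    have : 4 * L / ε < g := hg
    rw [div_lt_iff₀ hε] at this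
    rw [mul_div_assoc', div_le_iff₀ hgr]
    nlinarith
  have h9 : (k : ℝ) + 2 + L ≤ ε / 2 * n := by
    have h10 : 2 * (k + 2 + L : ℝ) / ε < n := hn1.trans_le (by exact_mod_cast hnn)
    rw [div_lt_iff₀ hε] at h10
    linarith
  have h11 : (L : ℝ) * (((n / g : ℕ) : ℝ) + 1) ≤ ε / 4 * n + L := by
    have := mul_le_mul_of_nonneg_left h6 hLr.le
    linarith
  linarith

theorem density_le_one {t : ℕ} (k : ℕ) (F : Finset (Finset (Fin t))) :
    codegreeDensity k F ≤ 1 := by
  unfold codegreeDensity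
  refine limsup_le_of_le ?_ (Eventually.of_forall (fun n => ?_))
  · exact IsCoboundedUnder.of_frequently_ge
      (Frequently.of_forall (fun n => show (0 : ℝ) ≤ (exCodegree k F n : ℝ) / n by positivity))
  · apply div_le_one_of_le₀ _ (Nat.cast_nonneg _)
    exact_mod_cast exCodegree_le k F n

theorem density_ge (ε : ℝ) (hε : 0 < ε) : ∃ k0, ∀ k, k0 ≤ k →
    1 - ε ≤ codegreeDensity (k + 1) (complete (k + 1) (k + 2)) := by
  obtain ⟨k0, hk0⟩ := exists_hypergraph ε hε
  refine ⟨k0, fun k hk => ?_⟩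
  obtain ⟨n0, hn0⟩ := hk0 k hk
  unfold codegreeDensity
  refine le_limsup_of_frequently_le ?_ ?_
  · refine Eventually.frequently ?_
    filter_upwards [eventually_ge_atTop n0, eventually_ge_atTop k, eventually_gt_atTop 0]
      with n h1 h2 h3
    obtain ⟨H, a1, a2, a3⟩ := hn0 n h1
    have h4 : (1 - ε) * n ≤ minCodegree (k + 1) H := minCodegree_ge H (by simpa using h2) _
      (fun T hT => a3 T (by simpa using hT))
    have h5 : minCodegree (k + 1) H ≤ exCodegree (k + 1) (complete (k + 1) (k + 2)) n :=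
      le_exCodegree H a1 (not_contains H a2)
    rw [le_div_iff₀ (by exact_mod_cast h3)]
    exact h4.trans (by exact_mod_cast h5)
  · refine ⟨1, ?_⟩
    rw [eventually_map]
    refine Eventually.of_forall (fun n => ?_)
    apply div_le_one_of_le₀ _ (Nat.cast_nonneg _)
    exact_mod_cast exCodegree_le _ _ n

/-- `π_{k-1}(K_{k+1}^k) → 1`. -/
theorem tendsto_density :
    Tendsto (fun k => codegreeDensity k (complete k (k + 1))) atTop (𝓝 1) := by
  rw [← tendsto_add_atTop_iff_nat 1]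
  rw [Metric.tendsto_atTop]
  intro ε hε
  obtain ⟨k0, hk0⟩ := density_ge (ε / 2) (by positivity)
  refine ⟨k0, fun k hk => ?_⟩
  have h1 := hk0 k hk
  have h2 := density_le_one (k + 1) (complete (k + 1) (k + 2))
  rw [Real.dist_eq, abs_lt]
  constructor
  · linarith
  · linarith

end Pool.Agent.U594.Codeg
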